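import Pool.Agent.L5helper85.Rot.Law

/-! Finite sums in place of the rotated mean. -/

set_option autoImplicit false

namespace Pool.Agent.L5helper85.Rot

open Filter Topology Set
open Pool.Agent.W187.UR (Lam cmean)
open Pool.Agent.W189.ML (ser om)
open Pool.Agent.N41.RM

variable {P : Type} {N : ℕ} {q : P → ℝ} {a : P → Fin N → ℂ} {κ : ℝ}

theorem upTo_finite (E : EG κ q a) (Y : ℝ) : {x : P × ℕ | fq q x ≤ Y}.Finite := by
  have h1 : {v : P | Real.log (q v) ≤ Y}.Finite := by
    have hs := E.sum 2 (by norm_num)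
    have hev := hs.tendsto_cofinite_zero.eventually
      (gt_mem_nhds (show (0 : ℝ) < Real.exp (-(2 * Y)) from Real.exp_pos _))
    rw [Filter.eventually_cofinite] at hev
    refine hev.subset fun v hv => ?_
    have hv' : Real.log (q v) ≤ Y := hv
    show ¬ (q v ^ (-2 : ℝ) < Real.exp (-(2 * Y)))
    rw [not_lt, Real.rpow_def_of_pos (E.pos v)]
    apply Real.exp_le_exp.2
    linarith
  have h2 : {x : P × ℕ | fq q x ≤ Y} ⊆ {v : P | Real.log (q v) ≤ Y} ×ˢ Iic ⌊Y / Real.log 2⌋₊ := by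
    rintro ⟨v, k⟩ hx
    have hx' : ((k : ℝ) + 1) * Real.log (q v) ≤ Y := hx
    have hlog : Real.log 2 ≤ Real.log (q v) := Real.log_le_log (by norm_num) (E.two_le v)
    have hlog2 : 0 < Real.log 2 := Real.log_pos (by norm_num)
    have hk0 : (0 : ℝ) ≤ k := k.cast_nonneg
    refine ⟨?_, ?_⟩
    · show Real.log (q v) ≤ Y
      nlinarith
    · show k ≤ ⌊Y / Real.log 2⌋₊
      apply Nat.le_floor
      rw [le_div_iff₀ hlog2]
      nlinarith
  exact (h1.prod (Set.finite_Iic _)).subset h2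

/-- the terms of the rotated mean -/
noncomputable def ct (q : P → ℝ) (a : P → Fin N → ℂ) (γ T : ℝ) (x : P × ℕ) : ℂ :=
  (cq a x : ℂ) * Complex.exp ((γ * (fq q x / T) : ℝ) * Complex.I) * (om (fq q x / T) : ℂ)

theorem ct_le (E : EG κ q a) (γ : ℝ) {T σ : ℝ} (hT : 0 < T) (hσ : 0 ≤ σ) (x : P × ℕ) :
    ‖ct q a γ T x‖ ≤ (Real.exp (Real.exp ((σ + 1) * T)) + 1) *
      (|cq a x| * Real.exp (-(σ * fq q x)) * Real.exp (-fq q x)) := by
  unfold ct
  rw [norm_mul, norm_mul, Complex.norm_exp_ofReal_mul_I, mul_one, Complex.norm_real,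
    Complex.norm_real, Real.norm_eq_abs, Real.norm_eq_abs]
  have hv : 0 ≤ fq q x / T := div_nonneg (E.fq_nonneg x) hT.le
  have h1 := Pool.Agent.W189.ML.om_le (a := (σ + 1) * T) (v := fq q x / T) (by positivity) hv
  have h2 : (σ + 1) * T * (fq q x / T) = (σ + 1) * fq q x := by field_simp
  rw [h2] at h1
  have h3 : 0 ≤ om (fq q x / T) := by
    unfold om
    exact inv_nonneg.2 (Real.Gamma_nonneg_of_nonneg (by linarith))
  rw [abs_of_nonneg h3]
  have h4 : Real.exp (-((σ + 1) * fq q x)) = Real.exp (-(σ * fq q x)) * Real.exp (-fq q x) := by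
    rw [← Real.exp_add]; congr 1; ring
  rw [h4] at h1
  calc |cq a x| * om (fq q x / T)
      ≤ |cq a x| * ((Real.exp (Real.exp ((σ + 1) * T)) + 1) *
        (Real.exp (-(σ * fq q x)) * Real.exp (-fq q x))) := by gcongr
    _ = _ := by ring

theorem ct_summable (E : EG κ q a) (γ : ℝ) {T : ℝ} (hT : 0 < T) :
    Summable fun x => ‖ct q a γ T x‖ := by
  have h0 := abs_nonneg κ
  have h1 := le_abs_self κ
  refine Summable.of_nonneg_of_le (fun x => norm_nonneg _)
    (fun x => (ct_le E γ (σ := 2 + |κ|) hT (by positivity) x).trans ?_)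
    ((E.summable (σ := 2 + |κ|) (by linarith)).mul_left
      (Real.exp (Real.exp ((2 + |κ| + 1) * T)) + 1))
  refine mul_le_mul_of_nonneg_left ?_ (by positivity)
  refine mul_le_of_le_one_right (by positivity) ?_
  rw [Real.exp_le_one_iff]
  linarith [E.fq_nonneg x]

theorem tail (E : EG κ q a) (γ : ℝ) {T Y : ℝ} (hT : 0 < T) :
    ‖(∑' x, ct q a γ T x) - ∑ᶠ x ∈ {x : P × ℕ | fq q x ≤ Y}, ct q a γ T x‖ ≤
      (Real.exp (Real.exp ((|κ| + 3) * T)) + 1) * Real.exp (-Y) *
        ∑' x, |cq a x| * Real.exp (-((2 + |κ|) * fq q x)) := by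
  have h0 := abs_nonneg κ
  have h1 := le_abs_self κ
  have hS := E.summable (σ := 2 + |κ|) (by linarith)
  have hf := (ct_summable E γ hT).of_norm
  have hfin := upTo_finite E Y
  rw [finsum_mem_eq_finite_toFinset_sum _ hfin]
  have h2 := hf.sum_add_tsum_compl (s := hfin.toFinset)
  rw [← h2, add_sub_cancel_left]
  set K : ℝ := (Real.exp (Real.exp ((|κ| + 3) * T)) + 1) * Real.exp (-Y) with hK
  have hK0 : 0 ≤ K := by positivity
  have hb : ∀ x : ((↑hfin.toFinset : Set (P × ℕ))ᶜ : Set (P × ℕ)), ‖ct q a γ T x‖ ≤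
      K * (|cq a x| * Real.exp (-((2 + |κ|) * fq q x))) := by
    rintro ⟨x, hx⟩
    have hx' : Y < fq q x := by
      rw [Set.mem_compl_iff, Finset.mem_coe, Set.Finite.mem_toFinset] at hx
      exact not_le.1 hx
    refine (ct_le E γ (σ := 2 + |κ|) hT (by positivity) x).trans ?_
    have e1 : (2 + |κ| + 1) * T = (|κ| + 3) * T := by ring
    rw [e1, hK]
    have e2 : Real.exp (-fq q x) ≤ Real.exp (-Y) := Real.exp_le_exp.2 (by linarith)
    calc (Real.exp (Real.exp ((|κ| + 3) * T)) + 1) *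
        (|cq a x| * Real.exp (-((2 + |κ|) * fq q x)) * Real.exp (-fq q x))
        ≤ (Real.exp (Real.exp ((|κ| + 3) * T)) + 1) *
        (|cq a x| * Real.exp (-((2 + |κ|) * fq q x)) * Real.exp (-Y)) := by gcongr
      _ = _ := by ring
  have hSs : Summable fun x : ((↑hfin.toFinset : Set (P × ℕ))ᶜ : Set (P × ℕ)) =>
      K * (|cq a x| * Real.exp (-((2 + |κ|) * fq q x))) := (hS.mul_left K).subtype _
  refine (tsum_of_norm_bounded hSs.hasSum hb).trans ?_
  rw [tsum_mul_left]
  refine mul_le_mul_of_nonneg_left ?_ hK0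
  exact Summable.tsum_subtype_le (fun x => |cq a x| * Real.exp (-((2 + |κ|) * fq q x))) _
    (fun x => by positivity) hS

/-- the finite sums differ from the mean by `O(1 / T)` -/
theorem tail_le (E : EG κ q a) (γ : ℝ) {T Y : ℝ} (hT : 1 ≤ T)
    (hY : Real.exp ((|κ| + 4) * T) ≤ Y) :
    ‖(∑' x, ct q a γ T x) - ∑ᶠ x ∈ {x : P × ℕ | fq q x ≤ Y}, ct q a γ T x‖ ≤
      2 * (∑' x, |cq a x| * Real.exp (-((2 + |κ|) * fq q x))) / T := by
  have hT0 : 0 < T := by linarith
  refine (tail E γ hT0).trans ?_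
  set S := ∑' x, |cq a x| * Real.exp (-((2 + |κ|) * fq q x)) with hS
  have hS0 : 0 ≤ S := tsum_nonneg fun x => by positivity
  set R := Real.exp ((|κ| + 3) * T) with hR
  have hκ := abs_nonneg κ
  have hR1 : 1 ≤ R := by
    rw [hR]
    apply Real.one_le_exp
    positivity
  have hR4 : Real.exp ((|κ| + 4) * T) = R * Real.exp T := by
    rw [hR, ← Real.exp_add]; congr 1; ring
  have hTe : T + 1 ≤ Real.exp T := Real.add_one_le_exp T
  have h1 : R + T ≤ Y := by
    rw [hR4] at hY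
    nlinarith
  have h2 : (Real.exp R + 1) * Real.exp (-Y) ≤ 2 / T := by
    have e1 : Real.exp R + 1 ≤ 2 * Real.exp R := by
      have := Real.one_le_exp (show 0 ≤ R by linarith)
      linarith
    calc (Real.exp R + 1) * Real.exp (-Y) ≤ 2 * Real.exp R * Real.exp (-Y) := by gcongr
      _ = 2 * Real.exp (R + -Y) := by rw [Real.exp_add]; ring
      _ ≤ 2 * Real.exp (-T) := by
          have : Real.exp (R + -Y) ≤ Real.exp (-T) := Real.exp_le_exp.2 (by linarith)
          linarith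
      _ ≤ 2 / T := by
          rw [Real.exp_neg, div_eq_mul_inv]
          have : (Real.exp T)⁻¹ ≤ T⁻¹ := inv_anti₀ hT0 (by linarith)
          linarith
  calc (Real.exp R + 1) * Real.exp (-Y) * S ≤ 2 / T * S := by gcongr
    _ = 2 * S / T := by ring

end Pool.Agent.L5helper85.Rot
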