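import Pool.Agent.N41.RM.Off2

/-! Euler products with real coefficients of any weight whose continuation is only known along the
nonnegative real axis: order, leading coefficient and number of the real zeros from the rotated mean. -/

set_option autoImplicit false

namespace Pool.Agent.L5helper85.Rot

open Filter Topology Set
open Pool.Agent.W187.UR (Lam cmean)
open Pool.Agent.W189.ML (ser om)
open Pool.Agent.N41.RM

variable {P : Type} {N : ℕ} {q : P → ℝ} {a : P → Fin N → ℂ} {κ : ℝ}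

theorem ser_analyticAt (E : EG κ q a) {w : ℂ} (hw : 1 + κ < w.re) :
    AnalyticAt ℂ (ser (fq q) (cq a)) w := by
  set ρ : ℝ := (1 + κ + w.re) / 2 with hρ
  have hρ1 : 1 + κ < ρ := by rw [hρ]; linarith
  have hρσ : ρ < w.re := by rw [hρ]; linarith
  have hopen : IsOpen {z : ℂ | ρ < z.re} := isOpen_lt continuous_const Complex.continuous_re
  have h1 : DifferentiableOn ℂ (ser (fq q) (cq a)) {z : ℂ | ρ < z.re} := by
    unfold ser
    refine Complex.differentiableOn_tsum_of_summable_norm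
      (E.summable hρ1) (fun i => ?_) hopen (fun i z hz => ?_)
    · exact Differentiable.differentiableOn (by fun_prop)
    · rw [norm_mul, Complex.norm_real, Real.norm_eq_abs, Complex.norm_exp]
      refine mul_le_mul_of_nonneg_left ?_ (abs_nonneg _)
      apply Real.exp_le_exp.2
      have h2 : (-(z * fq q i)).re = -(z.re * fq q i) := by
        rw [Complex.neg_re, Complex.re_mul_ofReal]
      rw [h2]
      have hz' : ρ < z.re := hz
      have := E.fq_nonneg i
      nlinarith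
  exact h1.analyticAt (hopen.mem_nhds hρσ)

/-- far to the right there are no zeros or poles -/
theorem order_right (E : EG κ q a) {F : ℂ → ℂ} {σ : ℝ} (hκ : 1 + κ ≤ σ)
    (hF : ∀ s : ℂ, σ < s.re → F s = ∏' v, ∏ j, (1 - a v j * (q v : ℂ) ^ (-s))⁻¹) {x : ℝ}
    (hx : σ < x) : meromorphicOrderAt F (x : ℂ) = 0 := by
  have ho : IsOpen {z : ℂ | σ < z.re} := isOpen_lt continuous_const Complex.continuous_re
  have h7 : F =ᶠ[𝓝 (x : ℂ)] fun z => Complex.exp (ser (fq q) (cq a) z) := by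
    filter_upwards [ho.mem_nhds (show σ < (x : ℂ).re by rwa [Complex.ofReal_re])] with z hz
    have hz' : σ < z.re := hz
    rw [hF z hz', (E.hasProd (by linarith)).tprod_eq]
  have h6 : AnalyticAt ℂ (fun z => Complex.exp (ser (fq q) (cq a) z)) (x : ℂ) :=
    (ser_analyticAt E (by rw [Complex.ofReal_re]; linarith)).cexp
  refine Pool.Agent.R409.RA.order_of_ne (h6.congr h7.symm) ?_
  rw [h7.self_of_nhds]
  exact Complex.exp_ne_zero _

/-- the zeros and poles on the positive real axis -/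
def zp (F : ℂ → ℂ) : Set ℝ := {x : ℝ | 0 < x ∧ meromorphicOrderAt F (x : ℂ) ≠ 0}

theorem order_ne_top (E : EG κ q a) {F : ℂ → ℂ} {σ : ℝ} (hκ : 1 + κ ≤ σ)
    (hm : ∀ x : ℝ, 0 ≤ x → MeromorphicAt F (x : ℂ))
    (hF : ∀ s : ℂ, σ < s.re → F s = ∏' v, ∏ j, (1 - a v j * (q v : ℂ) ^ (-s))⁻¹) {x : ℝ}
    (hx : 0 ≤ x) : meromorphicOrderAt F (x : ℂ) ≠ ⊤ := by
  set y : ℝ := max 0 σ + 1 with hy
  have hy1 : σ < y := by rw [hy]; linarith [le_max_right (0 : ℝ) σ]
  have hy0 : 0 ≤ y := by rw [hy]; linarith [le_max_left (0 : ℝ) σ]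
  set U : Set ℂ := (fun t : ℝ => (t : ℂ)) '' Ici (0 : ℝ) with hU
  have hmU : MeromorphicOn F U := by
    rintro z ⟨t, ht, rfl⟩
    exact hm t ht
  have hpre : IsPreconnected U := isPreconnected_Ici.image _ Complex.continuous_ofReal.continuousOn
  refine hmU.meromorphicOrderAt_ne_top_of_isPreconnected hpre (⟨y, hy0, rfl⟩ : (y : ℂ) ∈ U)
    (⟨x, hx, rfl⟩ : (x : ℂ) ∈ U) ?_
  rw [order_right E hκ hF hy1]
  exact WithTop.zero_ne_top

theorem zp_finite (E : EG κ q a) {F : ℂ → ℂ} {σ : ℝ} (hκ : 1 + κ ≤ σ)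
    (hm : ∀ x : ℝ, 0 ≤ x → MeromorphicAt F (x : ℂ))
    (hF : ∀ s : ℂ, σ < s.re → F s = ∏' v, ∏ j, (1 - a v j * (q v : ℂ) ^ (-s))⁻¹) :
    (zp F).Finite := by
  set U : Set ℂ := (fun t : ℝ => (t : ℂ)) '' Icc (0 : ℝ) σ with hU
  have hUc : IsCompact U := isCompact_Icc.image Complex.continuous_ofReal
  have hmU : MeromorphicOn F U := by
    rintro z ⟨t, ht, rfl⟩
    exact hm t ht.1
  have hf := (MeromorphicOn.divisor F U).finiteSupport hUc
  refine (hf.preimage (Complex.ofReal_injective.injOn (s := (fun t : ℝ => (t : ℂ)) ⁻¹' _))).subset ?_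
  rintro x ⟨h1, h2⟩
  have h3 : x ≤ σ := by
    by_contra h4
    push Not at h4
    exact h2 (order_right E hκ hF h4)
  have h6 : (x : ℂ) ∈ U := ⟨x, ⟨h1.le, h3⟩, rfl⟩
  show (x : ℂ) ∈ Function.support (MeromorphicOn.divisor F U)
  rw [Function.mem_support, MeromorphicOn.divisor_apply hmU h6]
  obtain ⟨k, hk⟩ := WithTop.ne_top_iff_exists.1 (order_ne_top E hκ hm hF h1.le)
  rw [← hk] at h2 ⊢
  rw [WithTop.untop₀_coe]
  intro h0
  apply h2
  rw [h0]
  rfl

/-- the number of the zeros minus the number of the poles on the positive real axis -/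
noncomputable def cnt (F : ℂ → ℂ) : ℤ := ∑ᶠ x ∈ Ioi (0 : ℝ), (meromorphicOrderAt F (x : ℂ)).untop₀

theorem law_one [Countable P] (E : EG κ q a) {F : ℂ → ℂ} {σ : ℝ} (hκ : 1 + κ ≤ σ)
    (hσ : 0 < σ)
    (hm : ∀ x : ℝ, 0 ≤ x → MeromorphicAt F (x : ℂ))
    (hF : ∀ s : ℂ, σ < s.re → F s = ∏' v, ∏ j, (1 - a v j * (q v : ℂ) ^ (-s))⁻¹) {γ : ℝ}
    (hγ : Real.pi / 2 < γ) :
    ∃ (r : ℤ) (l : ℝ), meromorphicOrderAt F 0 = r ∧ meromorphicTrailingCoeffAt F 0 = l ∧
      0 < (-1 : ℝ) ^ cnt F * l ∧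
      ∃ (C T₀ : ℝ), ∀ T ≥ T₀, ‖cmean (fq q) (cq a) γ T - (-r * (Real.log T - Lam γ) +
        Real.log |l| - Real.pi * cnt F * Complex.I)‖ ≤ C / T := by
  obtain ⟨m, r₀, C, T₀, hm0, hr, hi, h⟩ := rot_scale (A := σ) hσ E.fq_nonneg
    (fun σ' hσ' => E.summable (by linarith)) (fun x hx => hm x hx.1)
    (fun w hw => by rw [hF w hw, (E.hasProd (by linarith)).tprod_eq]) hγ
  have he : (∑ᶠ x ∈ Ioc (0 : ℝ) σ, (meromorphicOrderAt F (x : ℂ)).untop₀) = cnt F := by
    refine (finsum_mem_inter_support_eq' _ _ _ fun y hy => ?_).symm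
    rw [Function.mem_support] at hy
    constructor
    · intro h
      refine ⟨h, ?_⟩
      by_contra h3
      push Not at h3
      apply hy
      rw [order_right E hκ hF h3]
      rfl
    · exact fun h => h.1
  rw [he] at hi
  have hr0 : r₀ = (r₀.re : ℂ) + ((cnt F : ℤ) : ℂ) * (-(Real.pi * Complex.I)) := by
    apply Complex.ext
    · simp
    · rw [hi]
      simp
      ring
  have hexp : Complex.exp r₀ = ((Real.exp r₀.re * (-1 : ℝ) ^ cnt F : ℝ) : ℂ) := by
    rw [hr0, Complex.exp_add, ← Complex.ofReal_exp, Complex.exp_int_mul, Complex.exp_neg,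
      Complex.exp_pi_mul_I]
    push_cast
    simp
  refine ⟨m, Real.exp r₀.re * (-1 : ℝ) ^ cnt F, hm0, ?_, ?_, C, T₀, fun T hT => ?_⟩
  · rw [← hr, hexp]
  · have h1 : ((-1 : ℝ) ^ cnt F) * ((-1 : ℝ) ^ cnt F) = 1 := by
      rw [← mul_zpow]
      norm_num
    have h2 : (-1 : ℝ) ^ cnt F * (Real.exp r₀.re * (-1 : ℝ) ^ cnt F) =
        Real.exp r₀.re * (((-1 : ℝ) ^ cnt F) * ((-1 : ℝ) ^ cnt F)) := by ring
    rw [h2, h1, mul_one]
    exact Real.exp_pos _
  · have h1 := h T hT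
    have h2 : |Real.exp r₀.re * (-1 : ℝ) ^ cnt F| = Real.exp r₀.re := by
      rw [abs_mul, abs_of_pos (Real.exp_pos _), abs_zpow, abs_neg, abs_one, one_zpow, mul_one]
    rw [h2, Real.log_exp]
    have h3 : cmean (fq q) (cq a) γ T - (-m * (Real.log T - Lam γ) +
        (r₀.re : ℂ) - Real.pi * cnt F * Complex.I) =
        -(-cmean (fq q) (cq a) γ T - (m * (Real.log T - Lam γ) - r₀)) := by
      rw [hr0]
      simp only [Complex.add_re, Complex.ofReal_re]
      have h4 : (((cnt F : ℤ) : ℂ) * (-(Real.pi * Complex.I))).re = 0 := by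
        simp
      rw [h4]
      push_cast
      ring
    rw [h3, norm_neg]
    exact h1

end Pool.Agent.L5helper85.Rot
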