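import Pool.Agent.L5helper85.Rot.Law

/-! From rational polynomials to the parameters of an Euler product. -/

set_option autoImplicit false

namespace Pool.Agent.L5helper85.Rot

open Filter Topology Set Polynomial

/-- a multiset with `N` elements is the family of the values of a function -/
theorem exists_fun {s : Multiset ℂ} {N : ℕ} (h : Multiset.card s = N) :
    ∃ a : Fin N → ℂ, Finset.univ.val.map a = s := by
  obtain ⟨l, rfl⟩ := Quot.exists_rep s
  have hl : l.length = N := h
  subst hl
  refine ⟨fun j => l.get j, ?_⟩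
  rw [Fin.univ_val_map, List.ofFn_get]
  rfl

theorem exists_param (P : ℚ[X]) (h0 : P.coeff 0 = 1) {N : ℕ} (hN : P.natDegree ≤ N) {B : ℝ}
    (hB0 : 0 ≤ B) (hB : ∀ z : ℂ, aeval z P = 0 → 1 ≤ ‖z‖ * B) :
    ∃ a : Fin N → ℂ, (∀ j, ‖a j‖ ≤ B) ∧
      (∀ k : ℕ, ∑ j, a j ^ (k + 1) = ((P.aroots ℂ).map fun z => z⁻¹ ^ (k + 1)).sum) ∧
      (∀ k : ℕ, (∑ j, a j ^ (k + 1)).im = 0) ∧
      ∀ t : ℂ, aeval t P = ∏ j, (1 - a j * t) := by
  have hP0 : P ≠ 0 := by
    rintro rfl
    simp at h0
  have hcard : Multiset.card (P.aroots ℂ) = P.natDegree := by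
    rw [aroots_def, IsAlgClosed.card_roots_map_eq_natDegree_of_injective]
    exact (algebraMap ℚ ℂ).injective
  set s : Multiset ℂ := (P.aroots ℂ).map (fun z => z⁻¹) + Multiset.replicate (N - P.natDegree) 0
    with hs
  have hsc : Multiset.card s = N := by
    rw [hs, Multiset.card_add, Multiset.card_map, Multiset.card_replicate, hcard]
    omega
  obtain ⟨a, ha⟩ := exists_fun hsc
  have hsum : ∀ k : ℕ, ∑ j, a j ^ (k + 1) = ((P.aroots ℂ).map fun z => z⁻¹ ^ (k + 1)).sum := by
    intro k
    have h1 : ∑ j, a j ^ (k + 1) = ((Finset.univ.val.map a).map fun z => z ^ (k + 1)).sum := by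
      rw [Multiset.map_map]
      rfl
    rw [h1, ha, hs, Multiset.map_add, Multiset.sum_add, Multiset.map_map, Multiset.map_replicate,
      Multiset.sum_replicate]
    simp
  have hroot0 : ∀ z ∈ P.aroots ℂ, z ≠ 0 := by
    rintro z hz rfl
    rw [mem_aroots] at hz
    have h1 := hz.2
    rw [aeval_def, eval₂_at_zero, h0] at h1
    simp at h1
  refine ⟨a, ?_, hsum, ?_, ?_⟩
  · intro j
    have hj : a j ∈ s := by
      rw [← ha]
      exact Multiset.mem_map_of_mem _ (Finset.mem_univ_val j)
    rw [hs, Multiset.mem_add] at hj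
    rcases hj with hj | hj
    · obtain ⟨z, hz, hz2⟩ := Multiset.mem_map.1 hj
      have hz0 := hroot0 z hz
      rw [mem_aroots] at hz
      have h1 := hB z hz.2
      rw [← hz2, norm_inv]
      have hzn : 0 < ‖z‖ := norm_pos_iff.2 hz0
      rw [inv_le_iff_one_le_mul₀' hzn]
      exact h1
    · rw [Multiset.eq_of_mem_replicate hj, norm_zero]
      exact hB0
  · intro k
    rw [hsum, ← Complex.conj_eq_iff_im, map_multiset_sum, Multiset.map_map]
    have h1 : (P.aroots ℂ).map (starRingEnd ℂ) = P.aroots ℂ := by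
      rw [aroots_def]
      have h2 : (P.map (algebraMap ℚ ℂ)).map (starRingEnd ℂ) = P.map (algebraMap ℚ ℂ) := by
        rw [Polynomial.map_map]
        congr 1
        ext x
        simp
      conv_rhs => rw [← h2]
      rw [roots_map_of_injective_of_card_eq_natDegree (starRingEnd ℂ).injective
        IsAlgClosed.card_roots_eq_natDegree]
    conv_rhs => rw [← h1, Multiset.map_map]
    refine congrArg Multiset.sum (Multiset.map_congr rfl fun z _ => ?_)
    simp
  · intro t
    have h1 : P.map (algebraMap ℚ ℂ) = C (P.map (algebraMap ℚ ℂ)).leadingCoeff *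
        ((P.map (algebraMap ℚ ℂ)).roots.map fun z => X - C z).prod :=
      ((IsAlgClosed.splits _).eq_prod_roots)
    set L := (P.map (algebraMap ℚ ℂ)).leadingCoeff with hL
    have hev : ∀ u : ℂ, aeval u P = L * ((P.aroots ℂ).map fun z => u - z).prod := by
      intro u
      rw [aeval_def, ← eval_map, h1, eval_mul, eval_C, eval_multiset_prod, Multiset.map_map]
      rw [aroots_def]
      congr 2
      refine Multiset.map_congr rfl fun z _ => ?_
      simp
    have h2 : (1 : ℂ) = L * ((P.aroots ℂ).map fun z => -z).prod := by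
      have h3 := hev 0
      rw [aeval_def, eval₂_at_zero, h0, map_one] at h3
      rw [h3]
      congr 2
      refine Multiset.map_congr rfl fun z _ => ?_
      ring
    have h4 : ∏ j, (1 - a j * t) = ((P.aroots ℂ).map fun z => 1 - z⁻¹ * t).prod := by
      have h5 : ∏ j, (1 - a j * t) = ((Finset.univ.val.map a).map fun z => 1 - z * t).prod := by
        rw [Multiset.map_map]
        rfl
      rw [h5, ha, hs, Multiset.map_add, Multiset.prod_add, Multiset.map_map, Multiset.map_replicate,
        Multiset.prod_replicate]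
      simp
    rw [hev, h4]
    have h6 : ((P.aroots ℂ).map fun z => t - z).prod =
        ((P.aroots ℂ).map fun z => -z).prod * ((P.aroots ℂ).map fun z => 1 - z⁻¹ * t).prod := by
      rw [← Multiset.prod_map_mul]
      refine congrArg Multiset.prod (Multiset.map_congr rfl fun z hz => ?_)
      have := hroot0 z hz
      field_simp
      ring
    rw [h6, ← mul_assoc, ← h2, one_mul]

end Pool.Agent.L5helper85.Rot
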